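import Mathlib
import Pool.Agent.N515.DMin.Main

set_option autoImplicit false

/-!
MP_00f11d_al: a densely minimal abelian topological group is hereditarily minimal.
-/

namespace Pool.Agent.Results.MP_00f11d_al.DenselyMinimal

/-- `G` with its topology `τ` is minimal: every Hausdorff group topology `σ` on `G` coarser than
`τ` (in Mathlib's order `τ ≤ σ`) is equal to `τ`. -/
def IsMinimalGroup (G : Type) [Group G] [τ : TopologicalSpace G] : Prop :=
  ∀ σ : TopologicalSpace G, τ ≤ σ → @IsTopologicalGroup G σ _ → @T2Space G σ → σ = τ

/-- Let `A` be a Hausdorff abelian topological group. If every dense subgroup of `A` is minimal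
then every subgroup of `A` is minimal. -/
theorem result (A : Type) [CommGroup A] [TopologicalSpace A] [IsTopologicalGroup A] [T2Space A]
    (h : ∀ D : Subgroup A, Dense (D : Set A) → IsMinimalGroup D) (S : Subgroup A) :
    IsMinimalGroup S :=
  Pool.Agent.N515.DMin.main A h S

end Pool.Agent.Results.MP_00f11d_al.DenselyMinimal
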